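import Pool.Agent.H98.KS.Targets1

/-! CT of the board ks_modules: counting points with most coordinates in small sets. -/

open scoped BigOperators

noncomputable section

namespace Pool.Agent.H81.KS

open Pool.Agent.H98.KS

open Classical in
private theorem ct_prod (d t : ℕ) (B : Finset ℤ) (Z : Fin d → Finset ℤ) (w : ℝ) (ht : t ≤ d)
    (hZ : ∀ i, ((Z i).card : ℝ) ≤ w) (I : Finset (Fin d)) (hI : I.card = d - t) :
    ((Fintype.piFinset (fun i : Fin d => if i ∈ I then B ∩ Z i else B)).card : ℝ) ≤
      w ^ (d - t) * (B.card : ℝ) ^ t := by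
  rw [Fintype.card_piFinset]
  push_cast
  calc ∏ i : Fin d, (((if i ∈ I then B ∩ Z i else B) : Finset ℤ).card : ℝ)
      ≤ ∏ i : Fin d, (if i ∈ I then w else (B.card : ℝ)) := by
        refine Finset.prod_le_prod (fun i _ => by positivity) fun i _ => ?_
        by_cases hi : i ∈ I
        · rw [if_pos hi, if_pos hi]
          refine le_trans ?_ (hZ i)
          exact_mod_cast Finset.card_le_card Finset.inter_subset_right
        · rw [if_neg hi, if_neg hi]
    _ = w ^ (d - t) * (B.card : ℝ) ^ t := by
        rw [Finset.prod_ite, Finset.prod_const, Finset.prod_const]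
        have h1 : (Finset.univ.filter (fun i : Fin d => i ∈ I)).card = d - t := by
          rw [Finset.filter_mem_eq_inter, Finset.univ_inter, hI]
        have h2 : (Finset.univ.filter (fun i : Fin d => ¬ i ∈ I)).card = t := by
          have h3 := Finset.card_filter_add_card_filter_not (s := (Finset.univ : Finset (Fin d)))
            (fun i : Fin d => i ∈ I)
          rw [h1, Finset.card_univ, Fintype.card_fin] at h3
          omega
        rw [h1, h2]

theorem ks_CT : T_CT := by
  classical
  intro d t B Z w ht hw hZ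
  have hsub : ((Fintype.piFinset (fun _ : Fin d => B)).filter
      (fun y => d < t + (Finset.univ.filter (fun i => y i ∈ Z i)).card)) ⊆
      (Finset.powersetCard (d - t) (Finset.univ : Finset (Fin d))).biUnion
        (fun I => Fintype.piFinset (fun i : Fin d => if i ∈ I then B ∩ Z i else B)) := by
    intro y hy
    rw [Finset.mem_filter, Fintype.mem_piFinset] at hy
    obtain ⟨hyB, hyc⟩ := hy
    obtain ⟨I, hI, hIc⟩ := Finset.exists_subset_card_eq
      (show d - t ≤ (Finset.univ.filter (fun i => y i ∈ Z i)).card by omega)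
    rw [Finset.mem_biUnion]
    refine ⟨I, Finset.mem_powersetCard.2 ⟨Finset.subset_univ _, hIc⟩, ?_⟩
    rw [Fintype.mem_piFinset]
    intro i
    by_cases hi : i ∈ I
    · rw [if_pos hi]
      exact Finset.mem_inter.2 ⟨hyB i, (Finset.mem_filter.1 (hI hi)).2⟩
    · rw [if_neg hi]
      exact hyB i
  have h1 : (((Fintype.piFinset (fun _ : Fin d => B)).filter
      (fun y => d < t + (Finset.univ.filter (fun i => y i ∈ Z i)).card)).card : ℝ) ≤
      ∑ I ∈ Finset.powersetCard (d - t) (Finset.univ : Finset (Fin d)),
        ((Fintype.piFinset (fun i : Fin d => if i ∈ I then B ∩ Z i else B)).card : ℝ) := by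
    have h2 := (Finset.card_le_card hsub).trans Finset.card_biUnion_le
    exact_mod_cast h2
  have h3 : ∑ I ∈ Finset.powersetCard (d - t) (Finset.univ : Finset (Fin d)),
        ((Fintype.piFinset (fun i : Fin d => if i ∈ I then B ∩ Z i else B)).card : ℝ) ≤
      ((Finset.powersetCard (d - t) (Finset.univ : Finset (Fin d))).card : ℝ) *
        (w ^ (d - t) * (B.card : ℝ) ^ t) := by
    rw [← nsmul_eq_mul]
    refine Finset.sum_le_card_nsmul _ _ _ fun I hI => ?_
    exact ct_prod d t B Z w ht hZ I (Finset.mem_powersetCard.1 hI).2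
  have h4 : ((Finset.powersetCard (d - t) (Finset.univ : Finset (Fin d))).card : ℝ) ≤ 2 ^ d := by
    have h5 : (Finset.powersetCard (d - t) (Finset.univ : Finset (Fin d))).card ≤
        (Finset.powerset (Finset.univ : Finset (Fin d))).card := by
      refine Finset.card_le_card fun I hI => ?_
      exact Finset.mem_powerset.2 (Finset.subset_univ _)
    rw [Finset.card_powerset, Finset.card_univ, Fintype.card_fin] at h5
    exact_mod_cast h5
  have h6 : 0 ≤ w ^ (d - t) * (B.card : ℝ) ^ t := by positivity
  have h7 := mul_le_mul_of_nonneg_right h4 h6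
  have h8 : (2 : ℝ) ^ d * (w ^ (d - t) * (B.card : ℝ) ^ t) =
      2 ^ d * (B.card : ℝ) ^ t * w ^ (d - t) := by ring
  rw [h8] at h7
  exact (h1.trans h3).trans h7

end Pool.Agent.H81.KS
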