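import Pool.Agent.H98.KS.Targets4

/-! LM of the board ks_modules: multiplicativity of the number of solutions modulo `q`. -/

open scoped BigOperators

noncomputable section

namespace Pool.Agent.H81.KS

open Pool.Agent.H98.KS

private theorem sum_modEq {d k q : ℕ} {s t : Fin d → ℕ} (h : ∀ i, s i ≡ t i [MOD q]) :
    (∑ i, s i ^ k) ≡ (∑ i, t i ^ k) [MOD q] := by
  have : ∀ S : Finset (Fin d), (∑ i ∈ S, s i ^ k) ≡ (∑ i ∈ S, t i ^ k) [MOD q] := by
    classical
    intro S
    induction S using Finset.induction_on with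
    | empty => exact Nat.ModEq.refl _
    | insert a S ha ih =>
      rw [Finset.sum_insert ha, Finset.sum_insert ha]
      exact ((h a).pow k).add ih
  exact this _

private theorem mem_LS {k d W l : ℕ} {s : Fin d → ℕ} :
    s ∈ (Fintype.piFinset (fun _ : Fin d => Finset.range W)).filter
      (fun s => (∑ i, s i ^ k) ≡ l [MOD W]) ↔ (∀ i, s i < W) ∧ (∑ i, s i ^ k) ≡ l [MOD W] := by
  rw [Finset.mem_filter, Fintype.mem_piFinset]
  simp only [Finset.mem_range]

theorem ks_LM : T_LM := by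
  intro k d q1 q2 l h1 h2 hco
  unfold LS
  rw [← Finset.card_product]
  refine Finset.card_bij' (fun s _ => ((fun i => s i % q1), (fun i => s i % q2)))
    (fun p _ => fun i => (Nat.chineseRemainder hco (p.1 i) (p.2 i)).1) ?_ ?_ ?_ ?_
  · intro s hs
    rw [mem_LS] at hs
    rw [Finset.mem_product, mem_LS, mem_LS]
    obtain ⟨-, hs⟩ := hs
    refine ⟨⟨fun i => Nat.mod_lt _ (by omega), ?_⟩, ⟨fun i => Nat.mod_lt _ (by omega), ?_⟩⟩
    · exact (sum_modEq (fun i => Nat.mod_modEq (s i) q1)).trans (hs.of_mul_right q2)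
    · exact (sum_modEq (fun i => Nat.mod_modEq (s i) q2)).trans (hs.of_mul_left q1)
  · intro p hp
    rw [Finset.mem_product, mem_LS, mem_LS] at hp
    rw [mem_LS]
    obtain ⟨⟨hp1, hp2⟩, hp3, hp4⟩ := hp
    refine ⟨fun i => Nat.chineseRemainder_lt_mul hco _ _ (by omega) (by omega), ?_⟩
    rw [← Nat.modEq_and_modEq_iff_modEq_mul hco]
    refine ⟨?_, ?_⟩
    · exact (sum_modEq (fun i => (Nat.chineseRemainder hco (p.1 i) (p.2 i)).2.1)).trans hp2
    · exact (sum_modEq (fun i => (Nat.chineseRemainder hco (p.1 i) (p.2 i)).2.2)).trans hp4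
  · intro s hs
    rw [mem_LS] at hs
    funext i
    show (Nat.chineseRemainder hco (s i % q1) (s i % q2)).1 = s i
    have h3 : s i ≡ (Nat.chineseRemainder hco (s i % q1) (s i % q2)).1 [MOD q1 * q2] :=
      Nat.chineseRemainder_modEq_unique hco (Nat.mod_modEq (s i) q1).symm
        (Nat.mod_modEq (s i) q2).symm
    exact (Nat.ModEq.eq_of_lt_of_lt h3 (hs.1 i)
      (Nat.chineseRemainder_lt_mul hco _ _ (by omega) (by omega))).symm
  · intro p hp
    rw [Finset.mem_product, mem_LS, mem_LS] at hp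
    obtain ⟨⟨hp1, -⟩, hp3, -⟩ := hp
    refine Prod.ext (funext fun i => ?_) (funext fun i => ?_)
    · show (Nat.chineseRemainder hco (p.1 i) (p.2 i)).1 % q1 = p.1 i
      have h3 : (Nat.chineseRemainder hco (p.1 i) (p.2 i)).1 % q1 = p.1 i % q1 :=
        (Nat.chineseRemainder hco (p.1 i) (p.2 i)).2.1
      rw [h3, Nat.mod_eq_of_lt (hp1 i)]
    · show (Nat.chineseRemainder hco (p.1 i) (p.2 i)).1 % q2 = p.2 i
      have h3 : (Nat.chineseRemainder hco (p.1 i) (p.2 i)).1 % q2 = p.2 i % q2 :=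
        (Nat.chineseRemainder hco (p.1 i) (p.2 i)).2.2
      rw [h3, Nat.mod_eq_of_lt (hp3 i)]

end Pool.Agent.H81.KS
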