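import Pool.Agent.H98.KS.Targets3

/-! MP of the board ks_modules: the minor part in `l^2`. -/

open scoped BigOperators

noncomputable section

namespace Pool.Agent.H81.KS

open Pool.Agent.H98.KS MeasureTheory

private theorem measurableSet_MinS (k X : ℕ) : MeasurableSet (MinS k X) := by
  have h : MinS k X = Set.Ici 0 ∩ (Set.Iic 1 ∩ ⋂ (q : ℕ) (_ : 1 ≤ q)
      (_ : (q : ℝ) ≤ (X : ℝ) ^ ((1 : ℝ) / 20)) (a : ℤ),
      {θ : ℝ | (X : ℝ) ^ ((1 : ℝ) / 20) / (X : ℝ) ^ k < |θ - a / q|}) := by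
    ext θ
    simp only [MinS, Set.mem_ofPred_eq, Set.mem_inter_iff, Set.mem_Ici, Set.mem_Iic, Set.mem_iInter]
  rw [h]
  refine measurableSet_Ici.inter (measurableSet_Iic.inter ?_)
  refine MeasurableSet.iInter fun q => MeasurableSet.iInter fun _ => MeasurableSet.iInter fun _ =>
    MeasurableSet.iInter fun a => ?_
  exact (isOpen_lt continuous_const (by fun_prop)).measurableSet

private theorem MinS_subset (k X : ℕ) : MinS k X ⊆ Set.Icc 0 1 := fun _ h => ⟨h.1, h.2.1⟩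

private theorem volume_MinS_le (k X : ℕ) : volume (MinS k X) ≤ 1 := by
  refine (measure_mono (MinS_subset k X)).trans ?_
  rw [Real.volume_Icc]
  simp

private theorem volume_MinS_real (k X : ℕ) : (volume (MinS k X)).toReal ≤ 1 := by
  have := ENNReal.toReal_mono ENNReal.one_ne_top (volume_MinS_le k X)
  simpa using this

private theorem intOn {g : ℝ → ℝ} (hg : Continuous g) (k X : ℕ) : IntegrableOn g (MinS k X) :=
  (hg.continuousOn.integrableOn_compact isCompact_Icc).mono_set (MinS_subset k X)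

/-- Cauchy-Schwarz on a set of measure at most one -/
private theorem sq_int_le {g : ℝ → ℝ} (hg : Continuous g) (k X : ℕ) :
    (∫ θ in MinS k X, g θ) ^ 2 ≤ ∫ θ in MinS k X, g θ ^ 2 := by
  set I := ∫ θ in MinS k X, g θ with hI
  have h0 : 0 ≤ ∫ θ in MinS k X, (g θ - I) ^ 2 := integral_nonneg fun θ => sq_nonneg _
  have h1 : ∫ θ in MinS k X, (g θ - I) ^ 2 =
      (∫ θ in MinS k X, g θ ^ 2) - 2 * I * I + (volume (MinS k X)).toReal * I ^ 2 := by
    have e : (fun θ => (g θ - I) ^ 2) = fun θ => (g θ ^ 2 - 2 * I * g θ) + I ^ 2 := by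
      funext θ; ring
    rw [e]
    have i1 : IntegrableOn (fun θ => g θ ^ 2) (MinS k X) := intOn (hg.pow 2) k X
    have i2 : IntegrableOn (fun θ => 2 * I * g θ) (MinS k X) := intOn (continuous_const.mul hg) k X
    have i3 : IntegrableOn (fun _ : ℝ => I ^ 2) (MinS k X) := intOn continuous_const k X
    have i4 : IntegrableOn (fun θ => g θ ^ 2 - 2 * I * g θ) (MinS k X) := i1.sub i2
    have e1 : ∫ θ in MinS k X, ((g θ ^ 2 - 2 * I * g θ) + I ^ 2) =
        (∫ θ in MinS k X, (g θ ^ 2 - 2 * I * g θ)) + ∫ _θ in MinS k X, I ^ 2 :=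
      integral_add i4 i3
    have e2 : ∫ θ in MinS k X, (g θ ^ 2 - 2 * I * g θ) =
        (∫ θ in MinS k X, g θ ^ 2) - ∫ θ in MinS k X, 2 * I * g θ := integral_sub i1 i2
    rw [e1, e2, integral_const_mul, ← hI, setIntegral_const, smul_eq_mul]
    rfl
  have h2 := mul_le_mul_of_nonneg_right (volume_MinS_real k X) (sq_nonneg I)
  rw [h1] at h0
  nlinarith

private theorem cont_ee (c : ℝ) : Continuous fun θ : ℝ => ee (θ * c) := by
  unfold ee
  fun_prop

private theorem cont_KF (k : ℕ) {d : ℕ} (F : Finset (Fin d → ℤ)) (X : ℕ) (x : Fin d → ℤ) :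
    Continuous fun θ : ℝ => ‖KF k F X θ x‖ := by
  unfold KF
  exact (continuous_finsetSum _ fun y _ => cont_ee _).norm

private theorem ee_mul (a b : ℝ) : ee a * ee b = ee (a + b) := by
  unfold ee
  rw [← Complex.exp_add]
  congr 1
  push_cast
  ring

theorem ks_MP (hMIN : T_MIN) (hPK : T_PK) (hSP : T_SP) (hKC : T_KC) (hWK : T_WK) : T_MP := by
  classical
  intro k hk
  obtain ⟨A, hA⟩ := hWK k (by omega)
  obtain ⟨c5, C0, hc5, hc51, hC0, hmin⟩ := hMIN k A hk hA
  refine ⟨c5, hc5, hc51, fun d => ⟨C0 ^ (2 * d), by positivity, ?_⟩⟩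
  intro X F S hX
  set a : ℝ := C0 * (X : ℝ) ^ (1 - c5) with ha
  have ha0 : 0 ≤ a := by positivity
  have key : ∀ θ ∈ MinS k X, ∑ x ∈ S, ‖KF k F X θ x‖ ^ 2 ≤ a ^ (2 * d) * F.card := by
    intro θ hθ
    have h1 := hPK d {0} (fun _ => bx d (-(X : ℤ)) X)
      (fun _ y => ∏ i, ee (θ * (((y i).natAbs ^ k : ℕ) : ℝ))) F S
      (Set.indicator (F : Set (Fin d → ℤ)) (fun _ => 1)) (a ^ (2 * d)) ?_ ?_
    · rw [Finset.sum_singleton] at h1
      have h2 : ∑ x ∈ F, ‖(Set.indicator (F : Set (Fin d → ℤ)) (fun _ => (1 : ℂ))) x‖ ^ 2 =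
          (F.card : ℝ) := by
        rw [Finset.card_eq_sum_ones, Nat.cast_sum]
        refine Finset.sum_congr rfl fun x hx => ?_
        rw [Set.indicator_of_mem (Finset.mem_coe.2 hx)]
        simp
      rw [h2] at h1
      refine le_trans (le_of_eq ?_) h1
      refine Finset.sum_congr rfl fun x _ => ?_
      rw [hKC k d X F θ x]
    · intro ξ
      rw [Finset.sum_singleton, hSP d X (fun n => ee (θ * ((n.natAbs ^ k : ℕ) : ℝ))) ξ]
      have h3 : ∀ i : Fin d, ∑ n ∈ Finset.Icc (-(X : ℤ)) X,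
          ee (θ * ((n.natAbs ^ k : ℕ) : ℝ)) * ee (-(n * ξ i)) = Ss k X θ (ξ i) := by
        intro i
        unfold Ss
        refine Finset.sum_congr rfl fun n _ => ?_
        rw [ee_mul]
        rfl
      rw [Finset.prod_congr rfl fun i _ => h3 i, norm_prod]
      have h4 : ∏ i : Fin d, ‖Ss k X θ (ξ i)‖ ≤ a ^ d := by
        calc ∏ i : Fin d, ‖Ss k X θ (ξ i)‖ ≤ ∏ _i : Fin d, a :=
              Finset.prod_le_prod (fun i _ => norm_nonneg _) fun i _ => hmin X θ (ξ i) hX hθ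
          _ = a ^ d := by rw [Finset.prod_const, Finset.card_univ, Fintype.card_fin]
      have h5 : 0 ≤ ∏ i : Fin d, ‖Ss k X θ (ξ i)‖ := Finset.prod_nonneg fun i _ => norm_nonneg _
      calc (∏ i : Fin d, ‖Ss k X θ (ξ i)‖) ^ 2 ≤ (a ^ d) ^ 2 := pow_le_pow_left₀ h5 h4 2
        _ = a ^ (2 * d) := by rw [← pow_mul, mul_comm]
    · intro x hx
      exact Set.indicator_of_notMem (fun h => hx (Finset.mem_coe.1 h)) _
  have hc : ∀ x, Continuous fun θ : ℝ => ‖KF k F X θ x‖ := cont_KF k F X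
  calc ∑ x ∈ S, (∫ θ in MinS k X, ‖KF k F X θ x‖) ^ 2
      ≤ ∑ x ∈ S, ∫ θ in MinS k X, ‖KF k F X θ x‖ ^ 2 :=
        Finset.sum_le_sum fun x _ => sq_int_le (hc x) k X
    _ = ∫ θ in MinS k X, ∑ x ∈ S, ‖KF k F X θ x‖ ^ 2 :=
        (integral_finsetSum S fun x _ => intOn ((hc x).pow 2) k X).symm
    _ ≤ ∫ _θ in MinS k X, a ^ (2 * d) * (F.card : ℝ) := by
        refine setIntegral_mono_on ?_ (intOn continuous_const k X) (measurableSet_MinS k X) key
        exact intOn (continuous_finsetSum _ fun x _ => (hc x).pow 2) k X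
    _ = (volume (MinS k X)).toReal * (a ^ (2 * d) * (F.card : ℝ)) := by
        rw [setIntegral_const, smul_eq_mul]
        rfl
    _ ≤ 1 * (a ^ (2 * d) * (F.card : ℝ)) :=
        mul_le_mul_of_nonneg_right (volume_MinS_real k X) (by positivity)
    _ = C0 ^ (2 * d) * (X : ℝ) ^ (2 * (1 - c5) * d) * F.card := by
        rw [one_mul, ha, mul_pow]
        congr 2
        rw [← Real.rpow_natCast, ← Real.rpow_mul (by positivity)]
        congr 1
        push_cast
        ring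

end Pool.Agent.H81.KS
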