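import Pool.Agent.H98.KS.Targets5

/-! ZB of the board ks_modules: sublinearity over dyadic levels. -/

open scoped BigOperators ENNReal NNReal

noncomputable section

namespace Pool.Agent.H81.KS

open Pool.Agent.H98.KS

private theorem sph_finite {k d : ℕ} (hk : 1 ≤ k) {r : ℝ} (hr : 0 < r) : (Sph k d r).Finite := by
  refine (Set.finite_Icc (fun _ : Fin d => -⌈r⌉) (fun _ => ⌈r⌉)).subset ?_
  intro m hm
  have hm' : ∑ i, |(m i : ℝ)| ^ k = r ^ k := hm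
  have h1 : ∀ i, |(m i : ℝ)| ≤ r := by
    intro i
    have h2 : |(m i : ℝ)| ^ k ≤ r ^ k := by
      rw [← hm']
      exact Finset.single_le_sum (f := fun i => |(m i : ℝ)| ^ k) (fun j _ => by positivity)
        (Finset.mem_univ i)
    exact (pow_le_pow_iff_left₀ (abs_nonneg _) hr.le (by omega)).1 h2
  refine ⟨fun i => ?_, fun i => ?_⟩
  · have h3 := (abs_le.1 (h1 i)).1
    have h4 : (-(⌈r⌉ : ℤ) : ℝ) ≤ (m i : ℝ) := by
      have := Int.le_ceil r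
      linarith
    exact_mod_cast h4
  · have h3 := (abs_le.1 (h1 i)).2
    have h4 : (m i : ℝ) ≤ ((⌈r⌉ : ℤ) : ℝ) := h3.trans (Int.le_ceil r)
    exact_mod_cast h4

private theorem enorm_nat (n : ℕ) : ‖(n : ℂ)‖ₑ = (n : ℝ≥0∞) := by
  rw [← ofReal_norm, Complex.norm_natCast, ENNReal.ofReal_natCast]

open Classical in
private theorem sum_ind {d : ℕ} (E S : Finset (Fin d → ℤ)) (x : Fin d → ℤ) :
    ‖∑ y ∈ S, (Set.indicator (E : Set (Fin d → ℤ)) (fun _ => (1 : ℂ))) (x - y)‖ₑ =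
      ∑ y ∈ S, ‖(Set.indicator (E : Set (Fin d → ℤ)) (fun _ => (1 : ℂ))) (x - y)‖ₑ := by
  have h1 : ∀ y, (Set.indicator (E : Set (Fin d → ℤ)) (fun _ => (1 : ℂ))) (x - y) =
      if x - y ∈ E then 1 else 0 := by
    intro y
    rw [Set.indicator_apply]
    simp only [Finset.mem_coe]
  simp only [h1]
  have h2 : ∀ y, ‖(if x - y ∈ E then (1 : ℂ) else 0)‖ₑ = if x - y ∈ E then 1 else 0 := by
    intro y
    by_cases h : x - y ∈ E
    · rw [if_pos h, if_pos h]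
      simp
    · rw [if_neg h, if_neg h]
      simp
  simp only [h2]
  rw [Finset.sum_boole, Finset.sum_boole, enorm_nat]

private theorem level {d : ℕ} (f : (Fin d → ℤ) → ℂ) (E : ℤ → Finset (Fin d → ℤ))
    (hE : ∀ y j, y ∈ E j ↔ (2 : ℝ) ^ j < ‖f y‖ ∧ ‖f y‖ ≤ (2 : ℝ) ^ (j + 1)) (y : Fin d → ℤ) :
    ‖f y‖ₑ ≤ ∑' j : ℤ, ENNReal.ofReal ((2 : ℝ) ^ (j + 1)) *
      ‖(Set.indicator (E j : Set (Fin d → ℤ)) (fun _ => (1 : ℂ))) y‖ₑ := by
  rcases eq_or_ne (f y) 0 with h0 | h0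
  · rw [h0, enorm_zero]
    exact zero_le
  · obtain ⟨j, hj⟩ := exists_mem_Ioc_zpow (norm_pos_iff.2 h0) (one_lt_two : (1 : ℝ) < 2)
    have hy : y ∈ E j := (hE y j).2 ⟨hj.1, hj.2⟩
    refine le_trans ?_ (ENNReal.le_tsum j)
    rw [Set.indicator_of_mem (Finset.mem_coe.2 hy), enorm_one, mul_one, ← ofReal_norm]
    exact ENNReal.ofReal_le_ofReal hj.2

theorem ks_ZB : T_ZB := by
  intro k d f E x hk hE
  unfold maxOp
  refine iSup₂_le fun r hr => ?_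
  have hfin := sph_finite (d := d) hk hr.1
  have havg : ∀ g : (Fin d → ℤ) → ℂ, ‖sphAvg k d r g x‖ₑ =
      ‖(1 / ((Sph k d r).ncard : ℂ))‖ₑ * ‖∑ y ∈ hfin.toFinset, g (x - y)‖ₑ := by
    intro g
    unfold sphAvg
    rw [finsum_mem_eq_finite_toFinset_sum _ hfin, enorm_mul]
  have h1 : ‖sphAvg k d r f x‖ₑ ≤ ∑' j : ℤ, ENNReal.ofReal ((2 : ℝ) ^ (j + 1)) *
      ‖sphAvg k d r (Set.indicator (E j : Set (Fin d → ℤ)) (fun _ => 1)) x‖ₑ := by
    rw [havg f]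
    calc ‖(1 / ((Sph k d r).ncard : ℂ))‖ₑ * ‖∑ y ∈ hfin.toFinset, f (x - y)‖ₑ
        ≤ ‖(1 / ((Sph k d r).ncard : ℂ))‖ₑ * ∑ y ∈ hfin.toFinset, ‖f (x - y)‖ₑ :=
          mul_le_mul_right (enorm_sum_le _ _) _
      _ ≤ ‖(1 / ((Sph k d r).ncard : ℂ))‖ₑ * ∑ y ∈ hfin.toFinset, ∑' j : ℤ,
            ENNReal.ofReal ((2 : ℝ) ^ (j + 1)) *
              ‖(Set.indicator (E j : Set (Fin d → ℤ)) (fun _ => (1 : ℂ))) (x - y)‖ₑ :=
          mul_le_mul_right (Finset.sum_le_sum fun y _ => level f E hE (x - y)) _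
      _ = ∑' j : ℤ, ENNReal.ofReal ((2 : ℝ) ^ (j + 1)) *
            ‖sphAvg k d r (Set.indicator (E j : Set (Fin d → ℤ)) (fun _ => 1)) x‖ₑ := by
          rw [← Summable.tsum_finsetSum (fun _ _ => ENNReal.summable), ← ENNReal.tsum_mul_left]
          refine tsum_congr fun j => ?_
          rw [havg, sum_ind, ← Finset.mul_sum]
          ring
  refine h1.trans (ENNReal.tsum_le_tsum fun j => mul_le_mul_right ?_ _)
  exact le_iSup₂ (f := fun r (_ : r ∈ Rad k d) =>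
    ‖sphAvg k d r (Set.indicator (E j : Set (Fin d → ℤ)) (fun _ => 1)) x‖ₑ) r hr

end Pool.Agent.H81.KS
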